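import Mathlib

namespace Pool.Agent.H.MP_e59a69_co
open Finset

variable {V : Type} [Fintype V] [DecidableEq V]

theorem cut_sum (f : V → V → ℤ) (hf : ∀ u v, f u v = - f v u) (T : Finset V) :
    ∑ u ∈ T, ∑ v, f u v = ∑ u ∈ T, ∑ v ∈ Tᶜ, f u v := by
  have h0 : ∑ u ∈ T, ∑ v ∈ T, f u v = 0 := by
    have h1 : ∑ u ∈ T, ∑ v ∈ T, f u v = - ∑ u ∈ T, ∑ v ∈ T, f u v := by
      conv_lhs => rw [Finset.sum_comm]
      rw [← Finset.sum_neg_distrib]
      refine Finset.sum_congr rfl fun u _ => ?_
      rw [← Finset.sum_neg_distrib]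
      exact Finset.sum_congr rfl fun v _ => hf v u
    omega
  simp only [← Finset.sum_add_sum_compl T, Finset.sum_add_distrib, h0, zero_add]

theorem hoffman (c : V → V → ℤ) (h1 : ∀ u v, 0 ≤ c u v + c v u)
    (h2 : ∀ S : Finset V, 0 ≤ ∑ u ∈ S, ∑ v ∈ Sᶜ, c u v) :
    ∃ f : V → V → ℤ, (∀ u v, f u v = - f v u) ∧ (∀ u v, f u v ≤ c u v) ∧ ∀ u, ∑ v, f u v = 0 := by
  classical
  let Fe : (V → V → ℤ) → Prop := fun f => (∀ u v, f u v = - f v u) ∧ (∀ u v, f u v ≤ c u v)
  have hex : ∃ n, ∃ f, Fe f ∧ ∑ u, (∑ v, f u v).natAbs = n := by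
    let e := Fintype.equivFin V
    refine ⟨_, fun u v => if e u < e v then c u v else if e v < e u then - c v u else 0,
      ⟨fun u v => ?_, fun u v => ?_⟩, rfl⟩
    · dsimp only; split_ifs <;> omega
    · dsimp only
      have := h1 u v
      split_ifs with a b
      · exact le_rfl
      · omega
      · have : u = v := e.injective (by omega)
        subst this; omega
  obtain ⟨f, hf, hn⟩ := Nat.find_spec hex
  refine ⟨f, hf.1, hf.2, ?_⟩
  by_contra hcon
  have htot : ∑ u, ∑ v, f u v = 0 := by rw [cut_sum f hf.1 univ]; simp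
  obtain ⟨a, ha⟩ : ∃ a, ∑ v, f a v < 0 := by
    by_contra h
    push Not at h hcon
    obtain ⟨u, hu⟩ := hcon
    exact hu ((Finset.sum_eq_zero_iff_of_nonneg fun u _ => h u).1 htot u (mem_univ _))
  let Good : Finset V → Prop := fun T => a ∈ T ∧ ∀ b ∈ T, ∃ g, Fe g ∧
    (∀ u, ∑ v, g u v = ∑ v, f u v + (if u = a then 1 else 0) - (if u = b then 1 else 0)) ∧
    ∀ u v, (u ∉ T ∨ v ∉ T) → g u v = f u v
  obtain ⟨T, hT, hmax⟩ := Finset.exists_max_image (univ.filter Good) Finset.card
    ⟨{a}, Finset.mem_filter.2 ⟨mem_univ _, Finset.mem_singleton_self _, fun b hb =>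
      ⟨f, hf, fun u => by rw [Finset.mem_singleton.1 hb]; ring, fun _ _ _ => rfl⟩⟩⟩
  obtain ⟨haT, hT⟩ := (Finset.mem_filter.1 hT).2
  have sat : ∀ b ∈ T, ∀ d, d ∉ T → f b d = c b d := by
    intro b hb d hd
    by_contra hne
    have hlt : f b d < c b d := lt_of_le_of_ne (hf.2 b d) hne
    have hbd : b ≠ d := fun h => hd (h ▸ hb)
    have : Good (insert d T) := by
      refine ⟨Finset.mem_insert_of_mem haT, fun x hx => ?_⟩
      rcases Finset.mem_insert.1 hx with rfl | hx
      · obtain ⟨g, g1, g2, g3⟩ := hT b hb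
        refine ⟨fun u v => g u v + (if u = b ∧ v = x then 1 else 0) -
          (if u = x ∧ v = b then 1 else 0), ⟨fun u v => ?_, fun u v => ?_⟩, fun u => ?_,
          fun u v h => ?_⟩
        · dsimp only; rw [g1.1 u v]; simp only [and_comm (a := v = b), and_comm (a := v = x)]; ring
        · dsimp only
          have := g1.2 u v
          have h3 := g3 b x (Or.inr hd)
          split_ifs with p q
          · omega
          · rw [p.1, p.2]; omega
          · omega
          · omega
        · simp only [Finset.sum_sub_distrib, Finset.sum_add_distrib, g2 u, ite_and,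
            Finset.sum_ite_irrel, Finset.sum_ite_eq', mem_univ, if_true, Finset.sum_const_zero]
          ring
        · simp only [Finset.mem_insert, not_or] at h
          dsimp only
          rw [if_neg, if_neg, g3 u v (h.imp (·.2) (·.2))]
          · ring
          · rintro ⟨rfl, rfl⟩; rcases h with h | h
            · exact h.1 rfl
            · exact h.2 hb
          · rintro ⟨rfl, rfl⟩; rcases h with h | h
            · exact h.2 hb
            · exact h.1 rfl
      · obtain ⟨g, g1, g2, g3⟩ := hT x hx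
        exact ⟨g, g1, g2, fun u v h => g3 u v (h.imp (fun h h' => h (mem_insert_of_mem h'))
          (fun h h' => h (mem_insert_of_mem h')))⟩
    have := hmax _ (Finset.mem_filter.2 ⟨mem_univ _, this⟩)
    rw [Finset.card_insert_of_notMem hd] at this; omega
  obtain ⟨b, hb, hpos⟩ : ∃ b ∈ T, 0 < ∑ v, f b v := by
    by_contra h
    push Not at h
    have e1 : ∑ u ∈ T, ∑ v, f u v < ∑ u ∈ T, 0 := Finset.sum_lt_sum h ⟨a, haT, ha⟩
    rw [cut_sum f hf.1, Finset.sum_congr rfl fun u hu => Finset.sum_congr rfl fun v hv =>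
      sat u hu v (Finset.mem_compl.1 hv)] at e1
    rw [Finset.sum_const_zero] at e1
    exact absurd (h2 T) (not_le.2 e1)
  obtain ⟨g, g1, g2, _⟩ := hT b hb
  have hlt : ∑ u, (∑ v, g u v).natAbs < ∑ u, (∑ v, f u v).natAbs := by
    have hab : a ≠ b := by rintro rfl; omega
    refine Finset.sum_lt_sum (fun u _ => ?_) ⟨a, mem_univ _, ?_⟩
    · rw [g2]; split_ifs with p q q
      · omega
      · rw [p]; omega
      · rw [q]; omega
      · omega
    · rw [g2, if_pos rfl, if_neg hab]; omega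
  exact Nat.find_min hex (hn ▸ hlt) ⟨g, g1, rfl⟩

omit [DecidableEq V] in
theorem sign2 (μ π : V → V) (h1 : ∀ v, μ (μ v) = v) (h2 : ∀ v, π (π v) = v) (h3 : ∀ v, μ v ≠ v)
    (h4 : ∀ v, π v ≠ v) : ∃ s : V → ℤ, (∀ v, s v = 1 ∨ s v = -1) ∧ (∀ v, s (μ v) = - s v) ∧
      ∀ v, s (π v) = - s v := by
  classical
  let a : Equiv.Perm V := Function.Involutive.toPerm μ h1
  let b : Equiv.Perm V := Function.Involutive.toPerm π h2
  have ha : a * a = 1 := by ext v; exact h1 v
  have hb : b * b = 1 := by ext v; exact h2 v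
  let ρ := a * b
  have hc : ∀ j : ℤ, a * ρ ^ j = ρ ^ (-j) * a := by
    intro j
    have : ρ⁻¹ = a * ρ * a⁻¹ := by
      simp only [ρ, mul_inv_rev, inv_eq_of_mul_eq_one_right ha, inv_eq_of_mul_eq_one_right hb,
        ← mul_assoc, ha, one_mul]
    rw [zpow_neg, ← inv_zpow, this, conj_zpow]; group
  have hne : ∀ v, ¬ ρ.SameCycle v (μ v) := by
    rintro v ⟨n, hn⟩
    have key : ∀ j : ℤ, (ρ ^ (n - j)) v = μ ((ρ ^ j) v) := by
      intro j
      have : μ ((ρ ^ j) v) = (a * ρ ^ j) v := rfl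
      rw [this, hc, sub_eq_neg_add, zpow_add, Equiv.Perm.mul_apply, hn]; rfl
    rcases Int.even_or_odd' n with ⟨j, rfl | rfl⟩
    · have := key j
      rw [show 2 * j - j = j by ring] at this
      exact h3 _ this.symm
    · have := key j
      rw [show 2 * j + 1 - j = 1 + j by ring, zpow_add, zpow_one, Equiv.Perm.mul_apply] at this
      have h5 : μ (π ((ρ ^ j) v)) = μ ((ρ ^ j) v) := this
      exact h4 _ (by simpa [h1] using congrArg μ h5)
  let e := Fintype.equivFin V
  let m : V → ℕ := fun v => sInf {n | ∃ w, ρ.SameCycle v w ∧ (e w : ℕ) = n}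
  have hm : ∀ v w, ρ.SameCycle v w → m v = m w := fun v w h => by
    simp only [m]; congr 1; ext n
    exact ⟨fun ⟨x, hx, hn⟩ => ⟨x, h.symm.trans hx, hn⟩, fun ⟨x, hx, hn⟩ => ⟨x, h.trans hx, hn⟩⟩
  have hm' : ∀ v, m v ≠ m (μ v) := fun v h => by
    obtain ⟨x, hx, hn⟩ := Nat.sInf_mem (s := {n | ∃ w, ρ.SameCycle v w ∧ (e w : ℕ) = n})
      ⟨_, v, Equiv.Perm.SameCycle.refl _ _, rfl⟩
    obtain ⟨y, hy, hn'⟩ := Nat.sInf_mem (s := {n | ∃ w, ρ.SameCycle (μ v) w ∧ (e w : ℕ) = n})
      ⟨_, μ v, Equiv.Perm.SameCycle.refl _ _, rfl⟩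
    have : x = y := e.injective (Fin.ext (hn.trans (h.trans hn'.symm)))
    exact hne v (hx.trans (this ▸ hy.symm))
  refine ⟨fun v => if m v < m (μ v) then 1 else -1, fun v => by dsimp only; split_ifs <;> simp,
    fun v => ?_, fun v => ?_⟩
  · have := hm' v
    simp only [h1]; split_ifs <;> omega
  · have e1 : m (π v) = m (μ v) := hm _ _ ⟨1, by rw [zpow_one]; exact congrArg μ (h2 v)⟩
    have e2 : m v = m (μ (π v)) := hm _ _ ⟨1, by rw [zpow_one]; rfl⟩
    have := hm' v
    simp only [e1, ← e2]; split_ifs <;> omega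

theorem sign1 (μ π : V → V) (h1 : ∀ v, μ (μ v) = v) (h2 : ∀ v, π (π v) = v) (h3 : ∀ v, μ v ≠ v) :
    ∃ s : V → ℤ, (∀ v, s v = 1 ∨ s v = -1) ∧ (∀ v, s (μ v) = - s v) ∧
      ∀ v, π v ≠ v → s (π v) = - s v := by
  obtain ⟨s, a1, a2, a3⟩ := sign2 (V := V × Bool) (fun p => (μ p.1, p.2))
    (fun p => if π p.1 = p.1 then (p.1, !p.2) else (π p.1, p.2)) (fun p => by simp [h1])
    (fun p => by
      by_cases h : π p.1 = p.1
      · simp [h]
      · simp only [h, if_false, h2]; rw [if_neg (Ne.symm h)])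
    (fun p h => h3 _ (Prod.mk.inj h).1) (fun p => by
      split_ifs with h
      · intro hh; simpa using congrArg Prod.snd hh
      · intro hh; exact h (congrArg Prod.fst hh))
  refine ⟨fun v => s (v, true), fun v => a1 _, fun v => a2 (v, true), fun v hv => ?_⟩
  have := a3 (v, true)
  simpa [hv] using this

omit [DecidableEq V] in
theorem struct (F : SimpleGraph V) (hF : ∀ v, (F.neighborSet v).ncard = 2) :
    ∃ (σ : Equiv.Perm V) (π : V → V), (∀ v, F.Adj v (σ v)) ∧ (∀ v, σ (σ v) ≠ v) ∧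
      (∀ v, π (π v) = v) ∧ (∀ v, π v = v ∨ π v = σ v ∨ π v = σ.symm v) ∧
      (∀ v, π v = v → F.connectedComponentMk v ∈ F.oddComponents) ∧
      (∀ v w, π v = v → π w = w → F.connectedComponentMk v = F.connectedComponentMk w → v = w) := by
  have hcyc : F.IsCycles := fun v _ => hF v
  have hn : ∀ v, (F.neighborSet v).Nonempty := fun v =>
    Set.nonempty_of_ncard_ne_zero (by rw [hF]; norm_num)
  choose r hr using fun c : F.ConnectedComponent => c.nonempty_supp
  choose p hp1 hp2 using fun c : F.ConnectedComponent =>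
    hcyc.exists_cycle_toSubgraph_verts_eq_connectedComponentSupp (hr c) (hn _)
  let L := fun c => (p c).length
  let g := fun c i => (p c).getVert i
  have hL : ∀ c, 3 ≤ L c := fun c => (hp1 c).three_le_length
  have hg0 : ∀ c, g c (L c) = g c 0 := fun c => by simp [g, L]
  have hcc : ∀ c i, F.connectedComponentMk (g c i) = c := fun c i => by
    rw [← SimpleGraph.ConnectedComponent.mem_supp_iff, ← hp2, SimpleGraph.Walk.mem_verts_toSubgraph]
    exact (p c).getVert_mem_support i
  have hinj : ∀ c i j, i < L c → j < L c → g c i = g c j → i = j := fun c i j hi hj h =>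
    (hp1 c).getVert_injOn' (Nat.le_sub_one_of_lt hi) (Nat.le_sub_one_of_lt hj) h
  have hex : ∀ v, ∃ i, i < L (F.connectedComponentMk v) ∧ g (F.connectedComponentMk v) i = v := by
    intro v
    have : v ∈ (p (F.connectedComponentMk v)).support := by
      rw [← SimpleGraph.Walk.mem_verts_toSubgraph, hp2]; rfl
    obtain ⟨i, h1, h2⟩ := SimpleGraph.Walk.mem_support_iff_exists_getVert.1 this
    rcases h2.lt_or_eq with h | h
    · exact ⟨i, h, h1⟩
    · refine ⟨0, by have := hL (F.connectedComponentMk v); omega, ?_⟩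
      rw [← hg0]; simp only [g, L, ← h, h1]
  choose idx hi1 hi2 using hex
  have hidx : ∀ c i, i < L c → idx (g c i) = i := fun c i hi => by
    have h1 := hi1 (g c i)
    have h2 := hi2 (g c i)
    rw [hcc] at h1 h2
    exact hinj c _ _ h1 hi h2
  have ind : ∀ P : V → Prop, (∀ c i, i < L c → P (g c i)) → ∀ v, P v := fun P h v =>
    hi2 v ▸ h _ _ (hi1 v)
  let mv : (ℕ → ℕ → ℕ) → V → V := fun t v =>
    g (F.connectedComponentMk v) (t (L (F.connectedComponentMk v)) (idx v))
  have hmv : ∀ t c i, i < L c → mv t (g c i) = g c (t (L c) i) := fun t c i hi => by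
    simp only [mv, hcc, hidx c i hi]
  let nx : ℕ → ℕ → ℕ := fun l i => if i + 1 < l then i + 1 else 0
  let pv : ℕ → ℕ → ℕ := fun l i => if i = 0 then l - 1 else i - 1
  let pr : ℕ → ℕ → ℕ := fun l i => if i % 2 = 0 then (if i + 1 < l then i + 1 else i) else i - 1
  have b1 : ∀ c i, i < L c → nx (L c) i < L c := fun c i h => by
    simp only [nx]; split_ifs <;> omega
  have b2 : ∀ c i, i < L c → pv (L c) i < L c := fun c i h => by
    simp only [pv]; split_ifs <;> omega
  have b3 : ∀ c i, i < L c → pr (L c) i < L c := fun c i h => by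
    simp only [pr]; split_ifs <;> omega
  have hodd : ∀ c i, i < L c → mv pr (g c i) = g c i → i + 1 = L c ∧ i % 2 = 0 := by
    intro c i hi h
    rw [hmv _ _ _ hi] at h
    have := hinj c _ _ (b3 c i hi) hi h
    simp only [pr] at this; split_ifs at this <;> omega
  refine ⟨⟨mv nx, mv pv, ind _ fun c i hi => ?_, ind _ fun c i hi => ?_⟩, mv pr,
    ind _ fun c i hi => ?_, ind _ fun c i hi => ?_, ind _ fun c i hi => ?_, ind _ fun c i hi => ?_,
    ind _ fun c i hi h => ?_, ind _ fun c i hi => ind _ fun c' j hj h h' hc => ?_⟩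
  · rw [hmv _ _ _ hi, hmv _ _ _ (b1 c i hi)]; congr 1
    simp only [nx, pv]
    by_cases h0 : i + 1 < L c
    · rw [if_pos h0, if_neg (by omega)]; omega
    · rw [if_neg h0, if_pos rfl]; omega
  · rw [hmv _ _ _ hi, hmv _ _ _ (b2 c i hi)]; congr 1
    simp only [nx, pv]
    by_cases h0 : i = 0
    · rw [if_pos h0, if_neg (by omega), h0]
    · rw [if_neg h0, if_pos (by omega)]; omega
  · show F.Adj _ (mv nx _)
    rw [hmv _ _ _ hi]
    have := (p c).adj_getVert_succ hi
    simp only [nx]; split_ifs with h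
    · exact this
    · rw [← hg0, show L c = i + 1 by omega]; exact this
  · show mv nx (mv nx _) ≠ _
    rw [hmv _ _ _ hi, hmv _ _ _ (b1 c i hi)]
    intro h
    have := hinj c _ _ (b1 c _ (b1 c i hi)) hi h
    have := hL c
    simp only [nx] at *; split_ifs at * <;> omega
  · rw [hmv _ _ _ hi, hmv _ _ _ (b3 c i hi)]; congr 1
    simp only [pr]; split_ifs <;> omega
  · show _ ∨ _ = mv nx _ ∨ _ = mv pv _
    rw [hmv _ _ _ hi, hmv _ _ _ hi, hmv _ _ _ hi]
    simp only [pr, nx, pv]
    split_ifs <;> first | omega | simp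
  · obtain ⟨h1, h2⟩ := hodd c i hi h
    rw [hcc]
    have : c.supp = g c '' (Finset.range (L c) : Set ℕ) := by
      ext v
      simp only [SimpleGraph.ConnectedComponent.mem_supp_iff, coe_range, Set.mem_image, Set.mem_Iio]
      constructor
      · rintro rfl; exact ⟨_, hi1 v, hi2 v⟩
      · rintro ⟨j, _, rfl⟩; exact hcc c j
    show Odd c.supp.ncard
    rw [this, Set.InjOn.ncard_image (fun a ha b hb => hinj c a b (by simpa using ha)
      (by simpa using hb)), Set.ncard_coe_finset, Finset.card_range, Nat.odd_iff]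
    omega
  · rw [hcc, hcc] at hc
    subst hc
    have := hodd c i hi h
    have := hodd c j hj h'
    congr 1; omega

end Pool.Agent.H.MP_e59a69_co
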