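import Pool.Agent.H.MP_e59a69_co.A

namespace Pool.Agent.H.MP_e59a69_co
open Finset

variable {V : Type} [Fintype V] [DecidableEq V]

omit [Fintype V] in
theorem inv_sum (π : V → V) (s : V → ℤ) (h2 : ∀ v, π (π v) = v)
    (h3 : ∀ v, π v ≠ v → s (π v) = - s v) (S : Finset V) :
    ∑ v ∈ S, s v = ∑ v ∈ S, if π v ∉ S ∨ π v = v then s v else 0 := by
  rw [← Finset.sum_filter, ← Finset.sum_filter_add_sum_filter_not S (fun v => π v ∉ S ∨ π v = v)]
  have : ∑ v ∈ S.filter (fun v => ¬ (π v ∉ S ∨ π v = v)), s v = 0 := by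
    refine Finset.sum_involution (fun v _ => π v) (fun v hv => ?_) (fun v hv _ => ?_)
      (fun v hv => ?_) (fun v _ => h2 v)
    · simp only [mem_filter, not_or] at hv
      rw [h3 v hv.2.2]; ring
    · simp only [mem_filter, not_or] at hv
      exact hv.2.2
    · simp only [mem_filter, not_or, not_not] at hv ⊢
      exact ⟨hv.2.1, by rw [h2]; exact hv.1, by rw [h2]; exact Ne.symm hv.2.2⟩
  rw [this, add_zero]

def ex (τ : V → V) (S : Finset V) : ℕ := (S.filter fun u => τ u ∉ S).card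

def un (π : V → V) (s : V → ℤ) (S : Finset V) : Finset V := S.filter fun v => π v = v ∧ s v = 1

omit [Fintype V] in
theorem L1 (σ : Equiv.Perm V) (π : V → V) (s : V → ℤ) (h1 : ∀ v, s v = 1 ∨ s v = -1)
    (h2 : ∀ v, π (π v) = v) (h3 : ∀ v, π v ≠ v → s (π v) = - s v)
    (h4 : ∀ v, π v = v ∨ π v = σ v ∨ π v = σ.symm v) (S : Finset V) :
    ∑ v ∈ S, s v ≤ ex σ S + ex σ.symm S + (un π s S).card := by
  rw [inv_sum π s h2 h3 S]
  simp only [ex, un, Finset.card_filter, Nat.cast_sum, ← Finset.sum_add_distrib]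
  refine Finset.sum_le_sum fun v hv => ?_
  have := h1 v
  by_cases h0 : π v = v
  · simp only [h0, or_true, if_true, true_and]; split_ifs <;> simp <;> omega
  · rcases (h4 v).resolve_left h0 with h | h <;> rw [← h] <;> simp only [h0, or_false, false_and] <;>
      split_ifs <;> simp <;> omega

theorem L2 {C : Type} (cc : V → C) (σ : Equiv.Perm V) (hσ : ∀ v, cc (σ v) = cc v)
    (hcl : ∀ T : Finset V, (∀ v ∈ T, σ v ∈ T) → (∀ v ∈ T, σ.symm v ∈ T) →
      ∀ v ∈ T, ∀ w, cc w = cc v → w ∈ T) (S U : Finset V) (hU : U ⊆ S)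
    (hinj : ∀ v ∈ U, ∀ w ∈ U, cc v = cc w → v = w) (h : ∀ v ∈ U, ∃ w, cc w = cc v ∧ w ∉ S) :
    U.card ≤ ex σ S := by
  classical
  have : ∀ v ∈ U, ∃ u ∈ S.filter (fun u => σ u ∉ S), cc u = cc v := by
    intro v hv
    by_contra hcon
    push Not at hcon
    let T := S.filter fun u => cc u = cc v
    have t1 : ∀ u ∈ T, σ u ∈ T := fun u hu => by
      obtain ⟨a, b⟩ := Finset.mem_filter.1 hu
      refine Finset.mem_filter.2 ⟨?_, (hσ u).trans b⟩
      by_contra hh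
      exact hcon u (Finset.mem_filter.2 ⟨a, hh⟩) b
    have t2 : T.image σ = T := Finset.eq_of_subset_of_card_le (Finset.image_subset_iff.2 t1)
      (by rw [Finset.card_image_of_injective _ σ.injective])
    have t3 : ∀ u ∈ T, σ.symm u ∈ T := fun u hu => by
      rw [← t2] at hu
      obtain ⟨w, hw, rfl⟩ := Finset.mem_image.1 hu
      simpa using hw
    obtain ⟨w, w1, w2⟩ := h v hv
    exact w2 (Finset.mem_filter.1 (hcl T t1 t3 v (Finset.mem_filter.2 ⟨hU hv, rfl⟩) w w1)).1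
  choose! f f1 f2 using this
  exact Finset.card_le_card_of_injOn f (fun v hv => f1 v hv) fun v hv w hw hh =>
    hinj v hv w hw (by rw [← f2 v hv, ← f2 w hw, hh])

theorem L4 (σ : Equiv.Perm V) (S : Finset V) : ex σ Sᶜ = ex σ.symm S := by
  unfold ex
  refine Finset.card_bij (fun u _ => σ u) (fun u hu => by simpa [and_comm] using hu)
    (fun a _ b _ h => σ.injective h) fun w hw => ⟨σ.symm w, by simpa [and_comm] using hw, by simp⟩

theorem core {C : Type} (cc : V → C) (σ : Equiv.Perm V) (π μ : V → V) (k : ℕ)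
    (hσ : ∀ v, cc (σ v) = cc v)
    (hcl : ∀ T : Finset V, (∀ v ∈ T, σ v ∈ T) → (∀ v ∈ T, σ.symm v ∈ T) →
      ∀ v ∈ T, ∀ w, cc w = cc v → w ∈ T)
    (m1 : ∀ v, μ (μ v) = v) (m2 : ∀ v, μ v ≠ v) (p1 : ∀ v, π (π v) = v)
    (p2 : ∀ v, π v = v ∨ π v = σ v ∨ π v = σ.symm v)
    (p3 : ∀ v w, π v = v → π w = w → cc v = cc w → v = w)
    (p4 : (univ.filter fun v => π v = v).card ≤ 2 * k)
    (hcyc : ∀ S : Finset V, (∃ v, ∀ w, cc w = cc v → w ∈ S) → (∃ v, ∀ w, cc w = cc v → w ∉ S) →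
      5 * k - 1 ≤ ex σ S + ex σ.symm S + ex μ S) :
    ∃ s : V → ℤ, (∀ v, s v = 1 ∨ s v = -1) ∧ (∀ v, s (μ v) = - s v) ∧ ∀ S : Finset V,
      0 ≤ 3 * (ex σ S : ℤ) + 3 * ex σ.symm S +
        ∑ u ∈ S, if μ u ∉ S then (if s u = 1 then -2 else 3) else 0 := by
  obtain ⟨s, s1, s2, s3⟩ := sign1 μ π m1 p1 m2
  refine ⟨s, s1, s2, fun S => ?_⟩
  have htot : ∑ v, s v = 0 := by
    rw [inv_sum μ s m1 (fun v _ => s2 v)]; simp [m2]
  have hk : ∀ t : V → ℤ, (∀ v, t v = 1 ∨ t v = -1) → (∀ v, π v ≠ v → t (π v) = - t v) →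
      ∑ v, t v = 0 → ∀ S, (un π t S).card ≤ k := by
    intro t t1 t2 t3 S
    rw [inv_sum π t p1 t2] at t3
    have e1 : (2 * (un π t univ).card : ℤ) = ((univ.filter fun v => π v = v).card : ℤ) +
        ∑ v, if π v ∉ (univ : Finset V) ∨ π v = v then t v else 0 := by
      simp only [un, Finset.card_filter, Nat.cast_sum, ← Finset.sum_add_distrib, Finset.mul_sum]
      refine Finset.sum_congr rfl fun v _ => ?_
      by_cases h : π v = v
      · rcases t1 v with h1 | h1 <;> simp [h, h1]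
      · simp [h]
    have e2 : (un π t S).card ≤ (un π t univ).card :=
      Finset.card_le_card (Finset.filter_subset_filter _ (Finset.subset_univ _))
    omega
  have hσ' : ∀ v, cc (σ.symm v) = cc v := fun v => by rw [← hσ (σ.symm v)]; simp
  have hA : ∀ (t : V → ℤ) (S : Finset V), (∀ v ∈ un π t S, ∃ w, cc w = cc v ∧ w ∉ S) →
      (un π t S).card ≤ ex σ S ∧ (un π t S).card ≤ ex σ.symm S := fun t S h => by
    have hi : ∀ v ∈ un π t S, ∀ w ∈ un π t S, cc v = cc w → v = w := fun v hv w hw =>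
      p3 v w (Finset.mem_filter.1 hv).2.1 (Finset.mem_filter.1 hw).2.1
    exact ⟨L2 cc σ hσ hcl S _ (Finset.filter_subset _ _) hi h,
      L2 cc σ.symm hσ' (fun T a b => hcl T b a) S _ (Finset.filter_subset _ _) hi h⟩
  have n1 : ∀ v, -s v = 1 ∨ -s v = -1 := fun v => by rcases s1 v with h | h <;> simp [h]
  have n3 : ∀ v, π v ≠ v → -s (π v) = - -s v := fun v h => by rw [s3 v h]
  have a1 := L1 σ π s s1 p1 s3 p2 S
  have a2 := L1 σ π (fun v => - s v) n1 p1 n3 p2 Sᶜ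
  have a3 := Finset.sum_add_sum_compl S s
  rw [Finset.sum_neg_distrib, L4, L4] at a2
  simp only [Equiv.symm_symm] at a2
  have a4 := hk s s1 s3 htot S
  let mm : ℕ := (S.filter fun u => μ u ∉ S ∧ s u = -1).card
  have b1 : (ex μ S : ℤ) = ∑ v ∈ S, s v + 2 * mm := by
    rw [inv_sum μ s m1 (fun v _ => s2 v)]
    simp only [ex, mm, Finset.card_filter, Nat.cast_sum, ← Finset.sum_add_distrib, Finset.mul_sum]
    refine Finset.sum_congr rfl fun v _ => ?_
    by_cases h : μ v ∈ S <;> rcases s1 v with h1 | h1 <;> simp [h, h1, m2]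
  have b2 : (∑ u ∈ S, if μ u ∉ S then (if s u = 1 then -2 else 3) else 0 : ℤ) =
      -2 * ∑ v ∈ S, s v + mm := by
    rw [inv_sum μ s m1 (fun v _ => s2 v)]
    simp only [mm, Finset.card_filter, Nat.cast_sum, ← Finset.sum_add_distrib, Finset.mul_sum]
    refine Finset.sum_congr rfl fun v _ => ?_
    by_cases h : μ v ∈ S <;> rcases s1 v with h1 | h1 <;> simp [h, h1, m2]
  rw [b2]
  by_cases c1 : ∀ v ∈ un π s S, ∃ w, cc w = cc v ∧ w ∉ S
  · have := hA s S c1; omega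
  by_cases c2 : ∀ v ∈ un π (fun v => - s v) Sᶜ, ∃ w, cc w = cc v ∧ w ∉ Sᶜ
  · have := hA _ _ c2
    rw [L4, L4] at this
    simp only [Equiv.symm_symm] at this
    omega
  push Not at c1 c2
  obtain ⟨v, _, hv⟩ := c1
  obtain ⟨w, _, hw⟩ := c2
  have := hcyc S ⟨v, hv⟩ ⟨w, fun x hx => Finset.mem_compl.1 (hw x hx)⟩
  omega

end Pool.Agent.H.MP_e59a69_co
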